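import Pool.Agent.H258Z.TP.Main

/-!
The Freiheitssatz fails in the variety of transposed Poisson algebras.
-/

set_option autoImplicit false

namespace Pool.Agent.Results.MP_babce1_al.Disproof

open Pool.Agent.H258Z.TP

universe u

/-- Over every field of characteristic zero and for every number `n + 1 ≥ 6` of generators, the free
transposed Poisson algebra has an element `f` outside the subalgebra generated by the first `n`
generators such that the ideal generated by `f` contains a nonzero element of that subalgebra. -/
theorem result (F : Type u) [Field F] [CharZero F] (n : ℕ) (hn : 5 ≤ n) :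
    ∃ (T : Type u) (_ : AddCommGroup T) (_ : Module F T) (A : TPAlg F T) (x : Fin (n + 1) → T),
      IsFree A x ∧ ∃ f, f ∉ subalg A (x '' {i | i ≠ Fin.last n}) ∧
        ∃ g, g ≠ 0 ∧ g ∈ subalg A (x '' {i | i ≠ Fin.last n}) ∧ g ∈ ideal A f := by
  obtain ⟨T, _, _, A, x, hx⟩ := exists_free F (n + 1)
  exact ⟨T, inferInstance, inferInstance, A, x, hx, not_freiheit hn A x hx⟩

end Pool.Agent.Results.MP_babce1_al.Disproof
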